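import Mathlib
import Pool.Agent.H963J.Tight

/-!
# Predictors of small degree in the labels: definitions and the lower bound
(helper249, for MP_cba12a_lc)
-/

set_option autoImplicit false

namespace Pool.Agent.X249.LD

open Finset Pool.Agent.H963J

noncomputable section

/-- `f` is computed by a DNF formula with at most `s` gates: the output OR and at most `s - 1`
terms. A term is a set of literals `(i, b)`, and it is satisfied by `x` if `x i = b` for all of
them. -/
def IsDNF {m : ℕ} (s : ℕ) (f : (Fin m → Bool) → Bool) : Prop :=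
  ∃ F : Finset (Finset (Fin m × Bool)), F.card + 1 ≤ s ∧
    ∀ x, f x = true ↔ ∃ t ∈ F, ∀ l ∈ t, x l.1 = l.2

/-- The labels of the examples with the attribute vectors `X`. -/
def lab {m N : ℕ} (f : (Fin m → Bool) → Bool) (X : Fin N → Fin m → Bool) : Fin N → Bool :=
  fun t => f (X t)

/-- The mean square error, over a fresh uniform point `x`, of the prediction `p X y x` of the
`±1`-valued target at `x`, where `X` are the given attribute vectors and `y` their labels. -/
def errAt {m N : ℕ} (p : (Fin N → Fin m → Bool) → (Fin N → Bool) → (Fin m → Bool) → ℝ)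
    (X : Fin N → Fin m → Bool) (f : (Fin m → Bool) → Bool) : ℝ :=
  (∑ x : Fin m → Bool, (p X (lab f X) x - sg (f x)) ^ 2) / 2 ^ m

/-- The mean square error for uniform random examples. -/
def err {m N : ℕ} (p : (Fin N → Fin m → Bool) → (Fin N → Bool) → (Fin m → Bool) → ℝ)
    (f : (Fin m → Bool) → Bool) : ℝ :=
  (∑ X : Fin N → Fin m → Bool, errAt p X f) / 2 ^ (N * m)

/-- The parity function of the variables in `S` (in the `±1` notation their product). -/
def par {m : ℕ} (S : Finset (Fin m)) (x : Fin m → Bool) : Bool :=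
  decide (Even (S.filter fun i => x i = false).card)

/-- The number of sets of at most `D` of `N` examples. -/
def low (N D : ℕ) : ℕ := ∑ j ∈ range (D + 1), N.choose j

lemma sg_par {m : ℕ} (S : Finset (Fin m)) (x : Fin m → Bool) : sg (par S x) = cr S x := by
  have h1 : ∀ h ∈ S, sg (x h) = if x h = false then (-1 : ℝ) else 1 := by
    intro h _
    cases x h <;> simp [sg]
  unfold cr
  rw [prod_congr rfl h1, prod_ite, prod_const, prod_const_one, mul_one]
  unfold par sg
  by_cases h : Even (S.filter (fun h => x h = false)).card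
  · rw [h.neg_one_pow]
    simp [h]
  · rw [(Nat.not_even_iff_odd.1 h).neg_one_pow]
    simp [h]

lemma card_low (N D : ℕ) :
    ((univ : Finset (Finset (Fin N))).filter fun T => T.card ≤ D).card = low N D := by
  unfold low
  rw [card_eq_sum_card_fiberwise (f := fun T : Finset (Fin N) => T.card) (t := range (D + 1))]
  · refine sum_congr rfl fun j hj => ?_
    rw [mem_range] at hj
    have : ((univ : Finset (Finset (Fin N))).filter fun T => T.card ≤ D).filter
        (fun T => T.card = j) = powersetCard j univ := by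
      ext T
      simp only [mem_filter, mem_univ, true_and, mem_powersetCard, subset_univ]
      constructor
      · rintro ⟨_, h⟩; exact h
      · intro h; exact ⟨by omega, h⟩
    rw [this, card_powersetCard, card_univ, Fintype.card_fin]
  · intro T hT
    simp only [coe_filter, mem_univ, true_and, Set.mem_setOf_eq] at hT
    simp only [coe_range, Set.mem_Iio]
    omega

lemma cr_mul {m : ℕ} (S S' : Finset (Fin m)) (x : Fin m → Bool) :
    cr S x * cr S' x = cr (symmDiff S S') x := by
  rw [cr_eq, cr_eq, chi_mul]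
  rfl

lemma orth {m : ℕ} (S S' : Finset (Fin m)) :
    ∑ x : Fin m → Bool, cr S x * cr S' x = if S = S' then 2 ^ m else 0 := by
  have hc : (Fintype.card (Fin m → Bool) : ℝ) = 2 ^ m := by simp
  split_ifs with h
  · subst h
    have : ∀ x : Fin m → Bool, cr S x * cr S x = 1 := by
      intro x
      rw [cr_mul, symmDiff_self]
      unfold cr
      simp
    rw [sum_congr rfl fun x _ => this x, sum_const, card_univ, nsmul_eq_mul, hc, mul_one]
  · have h1 : E (cr (symmDiff S S')) = 0 := by
      apply E_cr
      intro h2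
      rw [← bot_eq_empty, symmDiff_eq_bot] at h2
      exact h h2
    unfold E at h1
    rw [div_eq_zero_iff] at h1
    rcases h1 with h1 | h1
    · rw [← h1]
      exact sum_congr rfl fun x _ => cr_mul S S' x
    · rw [hc] at h1
      exact absurd h1 (by positivity)

/-- Functions in a space of dimension at most `#T` approximate orthogonal functions badly. -/
lemma dim_bound {α β ι : Type} [Fintype α] [DecidableEq α] [Fintype β] (θ : β → α → ℝ) (c : ℝ)
    (horth : ∀ a a', ∑ x, θ x a * θ x a' = if a = a' then c else 0) (hc : 0 ≤ c)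
    (T : Finset ι) (v : ι → α → ℝ) (q : β → α → ℝ)
    (hq : ∀ x, ∃ h : ι → ℝ, ∀ a, q x a = ∑ i ∈ T, h i * v i a) :
    c * ((Fintype.card α : ℝ) - (T.card : ℝ)) ≤ ∑ x, ∑ a, (q x a - θ x a) ^ 2 := by
  classical
  let w : ι → EuclideanSpace ℝ α := fun i => WithLp.toLp 2 (v i)
  let V : Submodule ℝ (EuclideanSpace ℝ α) := Submodule.span ℝ ((T.image w : Finset _) : Set _)
  have hdim : Module.finrank ℝ V ≤ T.card :=
    (finrank_span_finset_le_card (T.image w)).trans card_image_le
  obtain ⟨b⟩ : Nonempty (OrthonormalBasis (Fin (Module.finrank ℝ V)) ℝ V) :=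
    ⟨stdOrthonormalBasis ℝ V⟩
  have hin : ∀ x y : EuclideanSpace ℝ α, inner ℝ x y = ∑ a, x a * y a := by
    intro x y
    simp [PiLp.inner_apply, mul_comm]
  -- the bound for every `x`
  have hx : ∀ x, ∑ a, θ x a ^ 2 - ∑ i, (∑ a, (b i : EuclideanSpace ℝ α) a * θ x a) ^ 2 ≤
      ∑ a, (q x a - θ x a) ^ 2 := by
    intro x
    obtain ⟨h, hh⟩ := hq x
    have hmem : ∑ i ∈ T, h i • w i ∈ V := by
      refine Submodule.sum_mem _ fun i hi => Submodule.smul_mem _ _ ?_
      exact Submodule.subset_span (by exact_mod_cast mem_image_of_mem w hi)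
    obtain ⟨u, hu⟩ : ∃ u : V, (u : EuclideanSpace ℝ α) = ∑ i ∈ T, h i • w i := ⟨⟨_, hmem⟩, rfl⟩
    have hua : ∀ a, (u : EuclideanSpace ℝ α) a = q x a := by
      intro a
      rw [hu, hh a]
      simp [w]
    obtain ⟨t, ht⟩ : ∃ t : EuclideanSpace ℝ α, t = WithLp.toLp 2 (θ x) := ⟨_, rfl⟩
    have hta : ∀ a, t a = θ x a := fun a => by rw [ht]
    have h1 : (u : EuclideanSpace ℝ α) = ∑ i, (b.repr u) i • (b i : EuclideanSpace ℝ α) := by
      conv_lhs => rw [← b.sum_repr u]
      simp
    have h2 : ∑ a, (q x a - θ x a) ^ 2 = ‖(u : EuclideanSpace ℝ α) - t‖ ^ 2 := by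
      rw [EuclideanSpace.real_norm_sq_eq]
      refine sum_congr rfl fun a _ => ?_
      rw [PiLp.sub_apply, hua, hta]
    have h3 : ‖(u : EuclideanSpace ℝ α)‖ ^ 2 = ∑ i, (b.repr u) i ^ 2 := by
      have := b.sum_sq_norm_inner_right u
      have h4 : ‖(u : EuclideanSpace ℝ α)‖ = ‖u‖ := rfl
      rw [h4, ← this]
      refine sum_congr rfl fun i _ => ?_
      rw [b.repr_apply_apply, Real.norm_eq_abs, sq_abs]
    have h4 : inner ℝ (u : EuclideanSpace ℝ α) t =
        ∑ i, (b.repr u) i * ∑ a, (b i : EuclideanSpace ℝ α) a * θ x a := by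
      rw [h1, sum_inner]
      refine sum_congr rfl fun i _ => ?_
      rw [real_inner_smul_left, hin]
      simp only [hta]
    have h5 : ‖t‖ ^ 2 = ∑ a, θ x a ^ 2 := by
      rw [EuclideanSpace.real_norm_sq_eq]
      simp only [hta]
    rw [h2, norm_sub_sq_real, h3, h4, h5]
    have h6 : 2 * ∑ i, (b.repr u) i * ∑ a, (b i : EuclideanSpace ℝ α) a * θ x a ≤
        ∑ i, (b.repr u) i ^ 2 + ∑ i, (∑ a, (b i : EuclideanSpace ℝ α) a * θ x a) ^ 2 := by
      rw [mul_sum, ← sum_add_distrib]
      refine sum_le_sum fun i _ => ?_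
      nlinarith [sq_nonneg ((b.repr u) i - ∑ a, (b i : EuclideanSpace ℝ α) a * θ x a)]
    linarith
  have hsum := sum_le_sum fun x (_ : x ∈ (univ : Finset β)) => hx x
  refine le_trans ?_ hsum
  rw [sum_sub_distrib, sum_comm]
  have h7 : ∑ a : α, ∑ x, θ x a ^ 2 = c * (Fintype.card α : ℝ) := by
    have : ∀ a : α, ∑ x, θ x a ^ 2 = c := by
      intro a
      have := horth a a
      rw [if_pos rfl] at this
      rw [← this]
      exact sum_congr rfl fun x _ => by ring
    rw [sum_congr rfl fun a _ => this a, sum_const, nsmul_eq_mul, card_univ, mul_comm]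
  have h8 : ∑ x, ∑ i, (∑ a, (b i : EuclideanSpace ℝ α) a * θ x a) ^ 2 =
      c * (Module.finrank ℝ V : ℝ) := by
    rw [sum_comm]
    have : ∀ i, ∑ x, (∑ a, (b i : EuclideanSpace ℝ α) a * θ x a) ^ 2 = c := by
      intro i
      have e1 : ∀ x, (∑ a, (b i : EuclideanSpace ℝ α) a * θ x a) ^ 2 =
          ∑ a, ∑ a', ((b i : EuclideanSpace ℝ α) a * (b i : EuclideanSpace ℝ α) a') *
            (θ x a * θ x a') := by
        intro x
        rw [sq, sum_mul_sum]
        exact sum_congr rfl fun a _ => sum_congr rfl fun a' _ => by ring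
      rw [sum_congr rfl fun x _ => e1 x, sum_comm]
      have e2 : ∀ a, ∑ x, ∑ a', ((b i : EuclideanSpace ℝ α) a * (b i : EuclideanSpace ℝ α) a') *
            (θ x a * θ x a') = c * (b i : EuclideanSpace ℝ α) a ^ 2 := by
        intro a
        rw [sum_comm, sum_eq_single a]
        · rw [← mul_sum, horth, if_pos rfl]; ring
        · intro a' _ hne
          rw [← mul_sum, horth, if_neg (Ne.symm hne), mul_zero]
        · intro h; exact absurd (mem_univ a) h
      rw [sum_congr rfl fun a _ => e2 a, ← mul_sum, ← EuclideanSpace.real_norm_sq_eq]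
      have e3 : ‖(b i : EuclideanSpace ℝ α)‖ = 1 := b.orthonormal.1 i
      rw [e3]
      ring
    rw [sum_congr rfl fun i _ => this i, sum_const, nsmul_eq_mul, card_univ, Fintype.card_fin,
      mul_comm]
  rw [h7, h8]
  have h9 : (Module.finrank ℝ V : ℝ) ≤ T.card := by exact_mod_cast hdim
  nlinarith

/-- **The lower bound for fixed attribute vectors.** -/
theorem lower {m k N D : ℕ}
    (p : (Fin N → Fin m → Bool) → (Fin N → Bool) → (Fin m → Bool) → ℝ)
    (X : Fin N → Fin m → Bool) (hp : ∀ x, LabelDegree D fun y => p X y x) :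
    (m.choose k : ℝ) - (low N D : ℝ) ≤
      ∑ S ∈ powersetCard k (univ : Finset (Fin m)), errAt p X (par S) := by
  classical
  have hcard : (Fintype.card {S // S ∈ powersetCard k (univ : Finset (Fin m))} : ℝ) =
      (m.choose k : ℝ) := by
    rw [Fintype.card_coe, card_powersetCard, card_univ, Fintype.card_fin]
  have h1 := dim_bound (α := {S // S ∈ powersetCard k (univ : Finset (Fin m))})
    (β := Fin m → Bool) (fun x S => cr S.1 x) (2 ^ m) (by
      intro S S'
      rw [orth]
      by_cases h : S = S'
      · rw [if_pos h, if_pos (congrArg Subtype.val h)]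
      · rw [if_neg h, if_neg (fun h' => h (Subtype.ext h'))]) (by positivity)
    ((univ : Finset (Finset (Fin N))).filter fun T => T.card ≤ D)
    (fun T S => ∏ t ∈ T, sg (lab (par S.1) X t)) (fun x S => p X (lab (par S.1) X) x) (by
      intro x
      obtain ⟨h, hh⟩ := hp x
      exact ⟨h, fun S => hh _⟩)
  rw [hcard, card_low, sum_comm] at h1
  have h2 : ∑ S ∈ powersetCard k (univ : Finset (Fin m)), errAt p X (par S) =
      (∑ S : {S // S ∈ powersetCard k (univ : Finset (Fin m))}, ∑ x,
        (p X (lab (par S.1) X) x - cr S.1 x) ^ 2) / 2 ^ m := by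
    rw [← sum_coe_sort (powersetCard k (univ : Finset (Fin m)))
      (fun S => errAt p X (par S)), sum_div]
    refine sum_congr rfl fun S _ => ?_
    unfold errAt
    congr 1
    exact sum_congr rfl fun x _ => by rw [sg_par]
  rw [h2, le_div_iff₀ (by positivity)]
  linarith

/-- parities are DNF formulas -/
lemma isDNF_par {m : ℕ} (S : Finset (Fin m)) (hS : 1 ≤ S.card) :
    IsDNF (2 ^ (S.card - 1) + 1) (par S) := by
  classical
  refine ⟨(S.powerset.filter fun A => Even A.card).image
    fun A => S.image fun i => (i, decide (i ∉ A)), ?_, ?_⟩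
  · apply Nat.add_le_add_right
    refine card_image_le.trans ?_
    have hne : S.Nonempty := card_pos.1 hS
    have h1 : ∑ A ∈ S.powerset, (-1 : ℤ) ^ A.card = 0 :=
      sum_powerset_neg_one_pow_card_of_nonempty hne
    have h2 : ∑ A ∈ S.powerset, (-1 : ℤ) ^ A.card =
        ((S.powerset.filter fun A => Even A.card).card : ℤ) -
          ((S.powerset.filter fun A => ¬ Even A.card).card : ℤ) := by
      rw [← sum_filter_add_sum_filter_not S.powerset (fun A => Even A.card)]
      rw [sum_congr rfl (g := fun _ => (1 : ℤ)) fun A hA => by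
        rw [(mem_filter.1 hA).2.neg_one_pow]]
      rw [sum_congr (s₁ := S.powerset.filter fun A => ¬ Even A.card) rfl
        (g := fun _ => (-1 : ℤ)) fun A hA => by
        rw [(Nat.not_even_iff_odd.1 (mem_filter.1 hA).2).neg_one_pow]]
      simp
      ring
    have h3 := card_filter_add_card_filter_not (s := S.powerset) (fun A => Even A.card)
    rw [card_powerset] at h3
    have h4 : 2 ^ S.card = 2 * 2 ^ (S.card - 1) := by
      rw [← pow_succ']
      congr 1
      omega
    omega
  · intro x
    unfold par
    rw [decide_eq_true_iff]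
    constructor
    · intro hx
      refine ⟨S.image fun i => (i, decide (i ∉ S.filter fun i => x i = false)),
        mem_image_of_mem _ (mem_filter.2 ⟨mem_powerset.2 (filter_subset _ _), hx⟩), ?_⟩
      intro l hl
      obtain ⟨i, hi, rfl⟩ := mem_image.1 hl
      simp only [mem_filter, hi, true_and]
      cases x i <;> simp
    · rintro ⟨t, ht, hl⟩
      obtain ⟨A, hA, rfl⟩ := mem_image.1 ht
      rw [mem_filter, mem_powerset] at hA
      have h1 : (S.filter fun i => x i = false) = A := by
        ext i
        rw [mem_filter]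
        constructor
        · rintro ⟨hi, h2⟩
          have h3 := hl (i, decide (i ∉ A)) (mem_image_of_mem (fun i => (i, decide (i ∉ A))) hi)
          simp only [h2] at h3
          by_contra h4
          simp [h4] at h3
        · intro hi
          refine ⟨hA.1 hi, ?_⟩
          have h3 := hl (i, decide (i ∉ A))
            (mem_image_of_mem (fun i => (i, decide (i ∉ A))) (hA.1 hi))
          simp only [h3, hi]
          simp
      rw [h1]
      exact hA.2

end

end Pool.Agent.X249.LD
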