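import Mathlib
import Pool.Agent.X249.LD.Low

/-!
# Learners whose mean hypothesis is close to a predictor of small degree in the labels
(helper249, for MP_cba12a_lc)
-/

set_option autoImplicit false

namespace Pool.Agent.X249.LD

open Finset Pool.Agent.H963J

noncomputable section

/-- A randomized learner: from `N` examples (attribute vectors and labels) it computes an arbitrary
hypothesis. -/
structure Learner (m N : ℕ) where
  Ω : Type
  fin : Fintype Ω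
  prob : Ω → ℝ
  prob_nonneg : ∀ ω, 0 ≤ prob ω
  prob_sum : ∑ ω, prob ω = 1
  hyp : Ω → (Fin N → Fin m → Bool) → (Fin N → Bool) → (Fin m → Bool) → Bool

/-- The mean, over the internal randomness, of the `±1`-valued hypothesis at the point `x`. -/
def Learner.mean {m N : ℕ} (L : Learner m N) (X : Fin N → Fin m → Bool) (y : Fin N → Bool)
    (x : Fin m → Bool) : ℝ :=
  letI := L.fin
  ∑ ω, L.prob ω * sg (L.hyp ω X y x)

/-- The probability, over the internal randomness, `N` uniform random examples of the target `f`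
and a fresh uniform point `x`, that the hypothesis is wrong at `x`: the mean error of the
hypothesis. -/
def Learner.error {m N : ℕ} (L : Learner m N) (f : (Fin m → Bool) → Bool) : ℝ :=
  letI := L.fin
  ∑ ω, L.prob ω * ((∑ X : Fin N → Fin m → Bool,
    ((univ.filter fun x : Fin m → Bool => L.hyp ω X (lab f X) x ≠ f x).card : ℝ) / 2 ^ m) /
      2 ^ (N * m))

/-- The mean square distance, over `N` uniform examples of the target `f` and a fresh uniform point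
`x`, between the mean hypothesis and the prediction `p`. -/
def Learner.dist {m N : ℕ} (L : Learner m N)
    (p : (Fin N → Fin m → Bool) → (Fin N → Bool) → (Fin m → Bool) → ℝ)
    (f : (Fin m → Bool) → Bool) : ℝ :=
  (∑ X : Fin N → Fin m → Bool,
    (∑ x : Fin m → Bool, (L.mean X (lab f X) x - p X (lab f X) x) ^ 2) / 2 ^ m) / 2 ^ (N * m)

lemma abs_mean {m N : ℕ} (L : Learner m N) (X : Fin N → Fin m → Bool) (y : Fin N → Bool)
    (x : Fin m → Bool) : |L.mean X y x| ≤ 1 := by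
  letI := L.fin
  unfold Learner.mean
  refine (abs_sum_le_sum_abs _ _).trans ?_
  rw [← L.prob_sum]
  refine sum_le_sum fun ω _ => ?_
  rw [abs_mul, abs_sg, mul_one, abs_of_nonneg (L.prob_nonneg ω)]

/-- From the bounds for the multiples of `p` to the correlation. -/
lemma corr_bound {Γ : Type} [Fintype Γ] (p μ θ : Γ → ℝ) (Z ρ ζ : ℝ)
    (hZ : Z = Fintype.card Γ) (hθ : ∀ γ, θ γ ^ 2 = 1) (hμ : ∀ γ, |μ γ| ≤ 1)
    (hζ : ∑ γ, (μ γ - p γ) ^ 2 ≤ ζ * Z) (hρ : ∀ c : ℝ, (1 - ρ) * Z ≤ ∑ γ, (c * p γ - θ γ) ^ 2)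
    (hρ0 : 0 ≤ ρ) (hζ0 : 0 ≤ ζ) :
    ∑ γ, μ γ * θ γ ≤ Z * (Real.sqrt ζ + (1 + Real.sqrt ζ) * Real.sqrt ρ) := by
  have hZ0 : 0 ≤ Z := by rw [hZ]; positivity
  obtain ⟨A, hA⟩ : ∃ A : ℝ, A = ∑ γ, p γ ^ 2 := ⟨_, rfl⟩
  obtain ⟨B, hB⟩ : ∃ B : ℝ, B = ∑ γ, p γ * θ γ := ⟨_, rfl⟩
  have hA0 : 0 ≤ A := by rw [hA]; positivity
  have hT : ∑ γ, θ γ ^ 2 = Z := by
    rw [sum_congr rfl fun γ _ => hθ γ, sum_const, card_univ, nsmul_eq_mul, mul_one, hZ]
  have hB2 : B ^ 2 ≤ A * (ρ * Z) := by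
    apply sq_le_of_quad
    intro c
    have h1 := hρ c
    have h2 : ∑ γ, (c * p γ - θ γ) ^ 2 = c ^ 2 * A - 2 * c * B + Z := by
      rw [hA, hB, ← hT, mul_sum, mul_sum, ← sum_sub_distrib, ← sum_add_distrib]
      exact sum_congr rfl fun γ _ => by ring
    rw [h2] at h1
    linarith
  have hM : ∑ γ, μ γ ^ 2 ≤ Z := by
    rw [← hT]
    refine sum_le_sum fun γ _ => ?_
    rw [hθ]
    have := hμ γ
    rw [← sq_abs]
    nlinarith [abs_nonneg (μ γ)]
  obtain ⟨R, hR⟩ : ∃ R : ℝ, R = ∑ γ, (μ γ - p γ) ^ 2 := ⟨_, rfl⟩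
  have hR0 : 0 ≤ R := by rw [hR]; positivity
  rw [← hR] at hζ
  obtain ⟨s, hs⟩ : ∃ s : ℝ, s = Real.sqrt ζ := ⟨_, rfl⟩
  have hs0 : 0 ≤ s := by rw [hs]; exact Real.sqrt_nonneg _
  have hs2 : s ^ 2 = ζ := by rw [hs]; exact Real.sq_sqrt hζ0
  obtain ⟨u, hu⟩ : ∃ u : ℝ, u = Real.sqrt ρ := ⟨_, rfl⟩
  have hu0 : 0 ≤ u := by rw [hu]; exact Real.sqrt_nonneg _
  have hu2 : u ^ 2 = ρ := by rw [hu]; exact Real.sq_sqrt hρ0
  have hc1 : |∑ γ, μ γ * (μ γ - p γ)| ≤ s * Z := by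
    apply abs_le_of_sq_le_sq _ (by positivity)
    refine (sum_mul_sq_le_sq_mul_sq univ μ (fun γ => μ γ - p γ)).trans ?_
    rw [← hR]
    calc (∑ γ, μ γ ^ 2) * R ≤ Z * (ζ * Z) := mul_le_mul hM hζ hR0 hZ0
      _ = (s * Z) ^ 2 := by rw [← hs2]; ring
  have hA2 : A ≤ (1 + s) ^ 2 * Z := by
    have h1 : A = ∑ γ, μ γ ^ 2 - 2 * ∑ γ, μ γ * (μ γ - p γ) + R := by
      rw [hA, hR, mul_sum, ← sum_sub_distrib, ← sum_add_distrib]
      exact sum_congr rfl fun γ _ => by ring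
    have h2 := (abs_le.1 hc1).1
    rw [← hs2] at hζ
    nlinarith
  have hc2 : |∑ γ, (μ γ - p γ) * θ γ| ≤ s * Z := by
    apply abs_le_of_sq_le_sq _ (by positivity)
    refine (sum_mul_sq_le_sq_mul_sq univ (fun γ => μ γ - p γ) θ).trans ?_
    rw [← hR, hT]
    calc R * Z ≤ (ζ * Z) * Z := mul_le_mul_of_nonneg_right hζ hZ0
      _ = (s * Z) ^ 2 := by rw [← hs2]; ring
  have hB3 : |B| ≤ (1 + s) * u * Z := by
    apply abs_le_of_sq_le_sq _ (by positivity)
    refine hB2.trans ?_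
    calc A * (ρ * Z) ≤ ((1 + s) ^ 2 * Z) * (ρ * Z) :=
          mul_le_mul_of_nonneg_right hA2 (by positivity)
      _ = ((1 + s) * u * Z) ^ 2 := by rw [← hu2]; ring
  have h3 : ∑ γ, μ γ * θ γ = B + ∑ γ, (μ γ - p γ) * θ γ := by
    rw [hB, ← sum_add_distrib]
    exact sum_congr rfl fun γ _ => by ring
  rw [h3, ← hs, ← hu]
  have h4 := (abs_le.1 hB3).2
  have h5 := (abs_le.1 hc2).2
  nlinarith

lemma LabelDegree.smul {N D : ℕ} {p : (Fin N → Bool) → ℝ} (h : LabelDegree D p) (c : ℝ) :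
    LabelDegree D (fun y => c * p y) := by
  obtain ⟨a, ha⟩ := h
  refine ⟨fun T => c * a T, fun y => ?_⟩
  beta_reduce
  rw [ha y, mul_sum]
  exact sum_congr rfl fun T _ => by ring

lemma sg_mul_sg (a b : Bool) : sg a * sg b = 1 - 2 * (if a ≠ b then (1 : ℝ) else 0) := by
  cases a <;> cases b <;> norm_num [sg]

/-- the error of a learner as a correlation -/
lemma error_eq {m N : ℕ} (L : Learner m N) (f : (Fin m → Bool) → Bool) :
    ∑ X : Fin N → Fin m → Bool, ∑ x : Fin m → Bool, L.mean X (lab f X) x * sg (f x) =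
      2 ^ (N * m) * 2 ^ m * (1 - 2 * L.error f) := by
  letI := L.fin
  have h1 : ∀ (X : Fin N → Fin m → Bool) (x : Fin m → Bool),
      L.mean X (lab f X) x * sg (f x) = ∑ ω, L.prob ω * (1 - 2 *
        (if L.hyp ω X (lab f X) x ≠ f x then (1 : ℝ) else 0)) := by
    intro X x
    unfold Learner.mean
    rw [sum_mul]
    refine sum_congr rfl fun ω _ => ?_
    rw [mul_assoc, sg_mul_sg]
  have h2 : ∀ X : Fin N → Fin m → Bool, ∑ x : Fin m → Bool, L.mean X (lab f X) x * sg (f x) =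
      ∑ ω, L.prob ω * (2 ^ m - 2 * ((univ.filter fun x : Fin m → Bool =>
        L.hyp ω X (lab f X) x ≠ f x).card : ℝ)) := by
    intro X
    rw [sum_congr rfl fun x _ => h1 X x, sum_comm]
    refine sum_congr rfl fun ω _ => ?_
    rw [← mul_sum, sum_sub_distrib, ← mul_sum, sum_boole, sum_const, card_univ, nsmul_eq_mul,
      mul_one]
    simp
  rw [sum_congr rfl fun X _ => h2 X, sum_comm]
  unfold Learner.error
  have h3 : (1 : ℝ) - 2 * ∑ ω, L.prob ω * ((∑ X : Fin N → Fin m → Bool,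
      ((univ.filter fun x : Fin m → Bool => L.hyp ω X (lab f X) x ≠ f x).card : ℝ) / 2 ^ m) /
      2 ^ (N * m)) = ∑ ω, L.prob ω * (1 - 2 * ((∑ X : Fin N → Fin m → Bool,
      ((univ.filter fun x : Fin m → Bool => L.hyp ω X (lab f X) x ≠ f x).card : ℝ) / 2 ^ m) /
      2 ^ (N * m))) := by
    rw [mul_sum]
    nth_rewrite 1 [← L.prob_sum]
    rw [← sum_sub_distrib]
    exact sum_congr rfl fun ω _ => by ring
  rw [h3, mul_sum]
  refine sum_congr rfl fun ω _ => ?_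
  rw [← mul_sum, sum_sub_distrib, ← mul_sum, ← sum_div, sum_const, card_univ, nsmul_eq_mul]
  have h4 : (Fintype.card (Fin N → Fin m → Bool) : ℝ) = 2 ^ (N * m) := by
    simp [← pow_mul, mul_comm]
  rw [h4]
  have h5 : (2 : ℝ) ^ m ≠ 0 := by positivity
  have h6 : (2 : ℝ) ^ (N * m) ≠ 0 := by positivity
  field_simp

/-- **The bound for learners.** -/
theorem learner {m k N D : ℕ} (hkm : k ≤ m) (L : Learner m N)
    (p : (Fin N → Fin m → Bool) → (Fin N → Bool) → (Fin m → Bool) → ℝ)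
    (hp : ∀ X x, LabelDegree D fun y => p X y x) (ζ : ℝ) (hζ0 : 0 ≤ ζ)
    (hζ : (∑ S ∈ powersetCard k (univ : Finset (Fin m)), L.dist p (par S)) / (m.choose k : ℝ) ≤ ζ) :
    1 / 2 - (Real.sqrt ζ + (1 + Real.sqrt ζ) *
      Real.sqrt ((low N D : ℝ) / (m.choose k : ℝ))) / 2 ≤
      (∑ S ∈ powersetCard k (univ : Finset (Fin m)), L.error (par S)) / (m.choose k : ℝ) := by
  classical
  have hK : (0 : ℝ) < (m.choose k : ℝ) := by exact_mod_cast Nat.choose_pos hkm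
  obtain ⟨K, hKd⟩ : ∃ K : ℝ, K = (m.choose k : ℝ) := ⟨_, rfl⟩
  obtain ⟨P, hP⟩ : ∃ P : Finset (Finset (Fin m)), P = powersetCard k univ := ⟨_, rfl⟩
  have hPc : (P.card : ℝ) = K := by
    rw [hP, hKd, card_powersetCard, card_univ, Fintype.card_fin]
  rw [← hKd] at hζ hK ⊢
  rw [← hP] at hζ ⊢
  obtain ⟨n1, hn1⟩ : ∃ n1 : ℝ, n1 = 2 ^ (N * m) := ⟨_, rfl⟩
  obtain ⟨n2, hn2⟩ : ∃ n2 : ℝ, n2 = 2 ^ m := ⟨_, rfl⟩
  have hn1' : 0 < n1 := by rw [hn1]; positivity
  have hn2' : 0 < n2 := by rw [hn2]; positivity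
  have hcX : (Fintype.card (Fin N → Fin m → Bool) : ℝ) = n1 := by
    rw [hn1]
    simp [← pow_mul, mul_comm]
  have hcx : (Fintype.card (Fin m → Bool) : ℝ) = n2 := by
    rw [hn2]
    simp
  -- sums over triples
  let Γ : Type := {S // S ∈ P} × (Fin N → Fin m → Bool) × (Fin m → Bool)
  have hΓ : ∀ F : Finset (Fin m) → (Fin N → Fin m → Bool) → (Fin m → Bool) → ℝ,
      ∑ γ : Γ, F γ.1.1 γ.2.1 γ.2.2 = ∑ S ∈ P, ∑ X, ∑ x, F S X x := by
    intro F
    rw [Fintype.sum_prod_type]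
    simp only [Fintype.sum_prod_type]
    rw [sum_coe_sort P (fun S => ∑ X, ∑ x, F S X x)]
  have hmain := corr_bound (Γ := Γ) (fun γ => p γ.2.1 (lab (par γ.1.1) γ.2.1) γ.2.2)
    (fun γ => L.mean γ.2.1 (lab (par γ.1.1) γ.2.1) γ.2.2) (fun γ => sg (par γ.1.1 γ.2.2))
    (K * n1 * n2) ((low N D : ℝ) / K) ζ ?_ ?_ ?_ ?_ ?_ (by positivity) hζ0
  · rw [hΓ fun S X x => L.mean X (lab (par S) X) x * sg (par S x)] at hmain
    rw [sum_congr rfl fun S _ => error_eq L (par S), ← hn1, ← hn2, ← mul_sum,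
      sum_sub_distrib, ← mul_sum, sum_const, nsmul_eq_mul, mul_one, hPc] at hmain
    obtain ⟨e, he⟩ : ∃ e : ℝ, e = ∑ S ∈ P, L.error (par S) := ⟨_, rfl⟩
    obtain ⟨r, hr⟩ : ∃ r : ℝ, r = Real.sqrt ζ + (1 + Real.sqrt ζ) *
      Real.sqrt ((low N D : ℝ) / K) := ⟨_, rfl⟩
    rw [← he, ← hr] at hmain
    rw [← he, ← hr, le_div_iff₀ hK]
    have h1 : (n1 * n2) * (K - 2 * e) ≤ (n1 * n2) * (K * r) := by linarith
    have h2 := le_of_mul_le_mul_left h1 (by positivity)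
    linarith
  · show K * n1 * n2 = (Fintype.card ({S // S ∈ P} × (Fin N → Fin m → Bool) × (Fin m → Bool)) : ℝ)
    rw [Fintype.card_prod, Fintype.card_prod, Fintype.card_coe]
    push_cast
    rw [hPc, ← hcX, ← hcx]
    push_cast
    ring
  · intro γ
    rw [sq]
    exact sg_mul_self _
  · intro γ
    exact abs_mean L _ _ _
  · rw [hΓ fun S X x => (L.mean X (lab (par S) X) x - p X (lab (par S) X) x) ^ 2]
    rw [div_le_iff₀ hK] at hζ
    have h1 : ∑ S ∈ P, L.dist p (par S) = (∑ S ∈ P, ∑ X, ∑ x,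
        (L.mean X (lab (par S) X) x - p X (lab (par S) X) x) ^ 2) / (n1 * n2) := by
      rw [sum_div]
      refine sum_congr rfl fun S _ => ?_
      unfold Learner.dist
      rw [← hn1, ← hn2, ← sum_div, div_div, mul_comm n2 n1]
    rw [h1, div_le_iff₀ (by positivity)] at hζ
    linarith
  · intro c
    rw [hΓ fun S X x => (c * p X (lab (par S) X) x - sg (par S x)) ^ 2, sum_comm]
    have h1 : ∀ X : Fin N → Fin m → Bool, (K - (low N D : ℝ)) * n2 ≤ ∑ S ∈ P, ∑ x,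
        (c * p X (lab (par S) X) x - sg (par S x)) ^ 2 := by
      intro X
      have h2 := lower (k := k) (D := D) (fun X y x => c * p X y x) X
        (fun x => LabelDegree.smul (hp X x) c)
      rw [← hP, ← hKd] at h2
      have h3 : ∑ S ∈ P, errAt (fun X y x => c * p X y x) X (par S) = (∑ S ∈ P, ∑ x,
          (c * p X (lab (par S) X) x - sg (par S x)) ^ 2) / n2 := by
        rw [sum_div]
        refine sum_congr rfl fun S _ => ?_
        unfold errAt
        rw [← hn2]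
      rw [h3, le_div_iff₀ hn2'] at h2
      exact h2
    have h2 := sum_le_sum fun X (_ : X ∈ (univ : Finset (Fin N → Fin m → Bool))) => h1 X
    rw [sum_const, card_univ, nsmul_eq_mul, hcX] at h2
    refine le_trans (le_of_eq ?_) h2
    field_simp

end

end Pool.Agent.X249.LD
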