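import Mathlib
import Pool.Agent.X249.LD.Learn

/-!
# Predictors of small degree in the labels: the upper bound for parities
(helper249, for MP_cba12a_lc)
-/

set_option autoImplicit false

namespace Pool.Agent.X249.LD

open Finset Pool.Agent.H963J

noncomputable section

/-- The predictor: every parity of `k` variables is weighted with the mean, over the sets of `D`
examples, of the products of its agreements with the labels. -/
def pred (m k N D : ℕ) (X : Fin N → Fin m → Bool) (y : Fin N → Bool) (x : Fin m → Bool) : ℝ :=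
  (∑ R ∈ powersetCard k (univ : Finset (Fin m)), cr R x *
    ∑ T ∈ powersetCard D (univ : Finset (Fin N)), ∏ t ∈ T, (sg (y t) * cr R (X t))) /
    (N.choose D : ℝ)

lemma pred_degree (m k N D : ℕ) (X : Fin N → Fin m → Bool) (x : Fin m → Bool) :
    LabelDegree D (fun y => pred m k N D X y x) := by
  refine ⟨fun T => if T.card = D then
    (∑ R ∈ powersetCard k (univ : Finset (Fin m)), cr R x *
      ∏ t ∈ T, cr R (X t)) / (N.choose D : ℝ) else 0, fun y => ?_⟩
  unfold pred
  beta_reduce
  simp only [mul_sum]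
  rw [sum_comm, sum_div]
  have h1 : powersetCard D (univ : Finset (Fin N)) =
      (univ.filter (fun T : Finset (Fin N) => T.card ≤ D)).filter (fun T => T.card = D) := by
    ext T
    simp only [mem_powersetCard, mem_filter, mem_univ, true_and]
    constructor
    · rintro ⟨_, h⟩
      exact ⟨h.le, h⟩
    · rintro ⟨_, h⟩
      exact ⟨subset_univ _, h⟩
  rw [h1, sum_filter]
  refine sum_congr rfl fun T _ => ?_
  split_ifs
  · rw [div_mul_eq_mul_div, sum_mul]
    congr 1
    refine sum_congr rfl fun R _ => ?_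
    rw [prod_mul_distrib]
    ring
  · rw [zero_mul]

lemma E_prodType {α β : Type} [Fintype α] [Fintype β] (F : α → β → ℝ) :
    E (fun z : α × β => F z.1 z.2) = E (fun a => E (fun b => F a b)) := by
  unfold E
  rw [Fintype.sum_prod_type, Fintype.card_prod, ← sum_div]
  push_cast
  rw [div_div, mul_comm (Fintype.card β : ℝ)]

/-- **The mean square error for parities.** -/
theorem pred_err {m k N D : ℕ} (hD : 1 ≤ D) (hDN : D ≤ N) (S : Finset (Fin m))
    (hS : S ∈ powersetCard k (univ : Finset (Fin m))) :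
    err (pred m k N D) (par S) = ((m.choose k : ℝ) - 1) / (N.choose D : ℝ) := by
  classical
  obtain ⟨C, hC⟩ : ∃ C : ℝ, C = (N.choose D : ℝ) := ⟨_, rfl⟩
  have hC0 : 0 < C := by
    rw [hC]
    exact_mod_cast Nat.choose_pos hDN
  obtain ⟨PT, hPT⟩ : ∃ PT : Finset (Finset (Fin N)), PT = powersetCard D univ := ⟨_, rfl⟩
  have hPTc : (PT.card : ℝ) = C := by
    rw [hPT, hC, card_powersetCard, card_univ, Fintype.card_fin]
  obtain ⟨PR, hPR⟩ : ∃ PR : Finset (Finset (Fin m)), PR = powersetCard k univ := ⟨_, rfl⟩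
  rw [← hPR] at hS
  -- the error
  have herr : ∀ (X : Fin N → Fin m → Bool) (x : Fin m → Bool),
      pred m k N D X (lab (par S) X) x - sg (par S x) =
      C⁻¹ * ∑ q ∈ (PR.erase S) ×ˢ PT, cr q.1 x * ∏ t ∈ q.2, cr (symmDiff q.1 S) (X t) := by
    intro X x
    have e1 : ∀ (R : Finset (Fin m)) (T : Finset (Fin N)),
        ∏ t ∈ T, (sg (lab (par S) X t) * cr R (X t)) =
        ∏ t ∈ T, cr (symmDiff R S) (X t) := by
      intro R T
      refine prod_congr rfl fun t _ => ?_
      unfold lab
      rw [sg_par, mul_comm, cr_mul]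
    unfold pred
    rw [← hPR, ← hPT, ← hC, sum_product, ← add_sum_erase _ _ hS]
    have e2 : ∑ T ∈ PT, ∏ t ∈ T, (sg (lab (par S) X t) * cr S (X t)) = C := by
      rw [← hPTc, sum_congr rfl fun T _ => e1 S T]
      have e3 : ∀ T ∈ PT, ∏ t ∈ T, cr (symmDiff S S) (X t) = 1 := by
        intro T _
        rw [symmDiff_self]
        apply prod_eq_one
        intro t _
        unfold cr
        simp
      rw [sum_congr rfl e3, sum_const, nsmul_eq_mul, mul_one]
    rw [e2, sg_par]
    have e4 : ∑ R ∈ PR.erase S, cr R x *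
        ∑ T ∈ PT, ∏ t ∈ T, (sg (lab (par S) X t) * cr R (X t)) =
        ∑ R ∈ PR.erase S, ∑ T ∈ PT, cr R x * ∏ t ∈ T, cr (symmDiff R S) (X t) := by
      refine sum_congr rfl fun R _ => ?_
      rw [mul_sum]
      exact sum_congr rfl fun T _ => by rw [e1]
    rw [e4]
    field_simp
    ring
  have h1 : err (pred m k N D) (par S) =
      E (fun z : (Fin N → Fin m → Bool) × (Fin m → Bool) =>
        (pred m k N D z.1 (lab (par S) z.1) z.2 - sg (par S z.2)) ^ 2) := by
    rw [E_prodType (fun (X : Fin N → Fin m → Bool) (x : Fin m → Bool) =>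
      (pred m k N D X (lab (par S) X) x - sg (par S x)) ^ 2)]
    unfold err errAt E
    have h4 : (Fintype.card (Fin N → Fin m → Bool) : ℝ) = 2 ^ (N * m) := by
      simp [← pow_mul, mul_comm]
    have h5 : (Fintype.card (Fin m → Bool) : ℝ) = 2 ^ m := by simp
    rw [h4, h5]
  rw [h1, E_congr (fun z => by rw [herr z.1 z.2, mul_pow]), E_mul,
    E_sum_orth ((PR.erase S) ×ˢ PT)
      (fun (q : Finset (Fin m) × Finset (Fin N))
        (z : (Fin N → Fin m → Bool) × (Fin m → Bool)) =>
        cr q.1 z.2 * ∏ t ∈ q.2, cr (symmDiff q.1 S) (z.1 t))]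
  · rw [card_product, card_erase_of_mem hS]
    have h3 : (PR.card : ℝ) = (m.choose k : ℝ) := by
      rw [hPR, card_powersetCard, card_univ, Fintype.card_fin]
    have h6 : 1 ≤ PR.card := card_pos.2 ⟨S, hS⟩
    push_cast [Nat.cast_sub h6]
    rw [hPTc, h3, ← hC]
    field_simp
  · intro q _ z
    rw [mul_pow, cr_eq, chi_sq, one_mul, ← prod_pow]
    apply prod_eq_one
    intro t _
    rw [cr_eq]
    exact chi_sq _ _
  · intro q hq q' hq' hne
    rw [mem_product] at hq hq'
    have e1 : ∀ z : (Fin N → Fin m → Bool) × (Fin m → Bool),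
        (cr q.1 z.2 * ∏ t ∈ q.2, cr (symmDiff q.1 S) (z.1 t)) *
          (cr q'.1 z.2 * ∏ t ∈ q'.2, cr (symmDiff q'.1 S) (z.1 t)) =
        ((∏ t ∈ q.2, cr (symmDiff q.1 S) (z.1 t)) *
          ∏ t ∈ q'.2, cr (symmDiff q'.1 S) (z.1 t)) * cr (symmDiff q.1 q'.1) z.2 := by
      intro z
      rw [← cr_mul]
      ring
    rw [E_congr e1, E_prodType (fun (X : Fin N → Fin m → Bool) (x : Fin m → Bool) =>
      ((∏ t ∈ q.2, cr (symmDiff q.1 S) (X t)) *
          ∏ t ∈ q'.2, cr (symmDiff q'.1 S) (X t)) * cr (symmDiff q.1 q'.1) x)]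
    by_cases hqq : q.1 = q'.1
    · have hT : q.2 ≠ q'.2 := fun h => hne (Prod.ext hqq h)
      have hR : ∀ R ∈ PR.erase S, symmDiff R S ≠ ∅ := by
        intro R hR h
        rw [← bot_eq_empty, symmDiff_eq_bot] at h
        exact (mem_erase.1 hR).1 h
      have e2 : ∀ X : Fin N → Fin m → Bool, E (fun x : Fin m → Bool =>
          ((∏ t ∈ q.2, cr (symmDiff q.1 S) (X t)) *
          ∏ t ∈ q'.2, cr (symmDiff q'.1 S) (X t)) * cr (symmDiff q.1 q'.1) x) =
          (∏ t ∈ q.2, cr (symmDiff q.1 S) (X t)) *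
          ∏ t ∈ q'.2, cr (symmDiff q'.1 S) (X t) := by
        intro X
        rw [E_mul]
        have : ∀ x : Fin m → Bool, cr (symmDiff q.1 q'.1) x = 1 := by
          intro x
          rw [hqq, symmDiff_self]
          unfold cr
          simp
        rw [E_congr this, E_const, mul_one]
      rw [E_congr e2]
      apply E_orth
      · intro h
        have := hq.2
        rw [hPT, mem_powersetCard, h, card_empty] at this
        omega
      · exact hR _ hq.1
      · exact hR _ hq'.1
      · intro h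
        exact hT (Prod.mk.inj h).1
    · have e2 : ∀ X : Fin N → Fin m → Bool, E (fun x : Fin m → Bool =>
          ((∏ t ∈ q.2, cr (symmDiff q.1 S) (X t)) *
          ∏ t ∈ q'.2, cr (symmDiff q'.1 S) (X t)) * cr (symmDiff q.1 q'.1) x) = 0 := by
        intro X
        have h7 : E (fun x : Fin m → Bool => cr (symmDiff q.1 q'.1) x) = 0 := by
          apply E_cr
          intro h
          rw [← bot_eq_empty, symmDiff_eq_bot] at h
          exact hqq h
        rw [E_mul, h7, mul_zero]
      rw [E_congr e2, E_const]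

end

end Pool.Agent.X249.LD
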